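import Mathlib

set_option autoImplicit false

/-!
Odd integers with `k` distinct prime factors and `σ(n) = 2 n - d`, `d ∣ n`: finiteness for every `k`.
-/

namespace Pool.Agent.H457R3.DefPerf

open Filter Finset Topology

/-- `1 + p + ... + p^a` -/
def s (p a : ℕ) : ℕ := ∑ j ∈ range (a + 1), p ^ j

lemma s_geom_real (p : ℕ) (a : ℕ) :
    (s p a : ℝ) * ((p : ℝ) - 1) = (p : ℝ) ^ (a + 1) - 1 := by
  unfold s
  push_cast
  exact geom_sum_mul (p : ℝ) (a + 1)

lemma s_ge (p a : ℕ) : p ^ a ≤ s p a := by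
  unfold s
  rw [sum_range_succ]
  omega

lemma s_gt {p a : ℕ} (ha : 1 ≤ a) : p ^ a < s p a := by
  unfold s
  rw [sum_range_succ]
  have : 0 < ∑ j ∈ range a, p ^ j := by
    obtain ⟨b, rfl⟩ : ∃ b, a = b + 1 := ⟨a - 1, by omega⟩
    rw [sum_range_succ']
    simp
  omega

/-- `σ(p^a) / p^a` -/
noncomputable def h (p a : ℕ) : ℝ := (s p a : ℝ) / (p : ℝ) ^ a

/-- the formula `σ(p^a)/p^a = (p/(p-1)) * ((p^(a+1)-1)/p^(a+1))` -/
lemma h_eq {p : ℕ} (hp : 2 ≤ p) (a : ℕ) :
    h p a = ((p : ℝ) / ((p - 1 : ℕ) : ℝ)) * (((p ^ (a + 1) - 1 : ℕ) : ℝ) / ((p ^ (a + 1) : ℕ) : ℝ)) := by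
  have hp1 : (1 : ℝ) < p := by exact_mod_cast hp
  have h1 := s_geom_real p a
  have h2 : ((p - 1 : ℕ) : ℝ) = (p : ℝ) - 1 := by
    rw [Nat.cast_sub (by omega)]; simp
  have h3 : ((p ^ (a + 1) - 1 : ℕ) : ℝ) = (p : ℝ) ^ (a + 1) - 1 := by
    rw [Nat.cast_sub (Nat.one_le_pow _ _ (by omega))]; simp
  have h4 : (0 : ℝ) < (p : ℝ) - 1 := by linarith
  have h5 : (0 : ℝ) < (p : ℝ) ^ a := by positivity
  rw [h2, h3, ← h1]
  unfold h
  push_cast
  rw [pow_succ]
  field_simp

lemma h_ge_one {p : ℕ} (hp : 2 ≤ p) (a : ℕ) : 1 ≤ h p a := by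
  unfold h
  have h5 : (0 : ℝ) < (p : ℝ) ^ a := by positivity
  rw [le_div_iff₀ h5, one_mul]
  exact_mod_cast s_ge p a

lemma h_le {p : ℕ} (hp : 2 ≤ p) (a : ℕ) : h p a ≤ (p : ℝ) / ((p - 1 : ℕ) : ℝ) := by
  rw [h_eq hp a]
  have h2 : ((p - 1 : ℕ) : ℝ) = (p : ℝ) - 1 := by
    rw [Nat.cast_sub (by omega)]; simp
  have hp1 : (1 : ℝ) < p := by exact_mod_cast hp
  have h4 : (0 : ℝ) < (p : ℝ) - 1 := by linarith
  have h3 : ((p ^ (a + 1) - 1 : ℕ) : ℝ) / ((p ^ (a + 1) : ℕ) : ℝ) ≤ 1 := by
    apply div_le_one_of_le₀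
    · exact_mod_cast Nat.sub_le _ _
    · positivity
  have h5 : (0 : ℝ) ≤ (p : ℝ) / ((p - 1 : ℕ) : ℝ) := by positivity
  nlinarith

/-- a natural valued function is eventually constant or tends to infinity along an ultrafilter -/
lemma dichotomy (U : Ultrafilter ℕ) (g : ℕ → ℕ) :
    (∃ c, ∀ᶠ n in (U : Filter ℕ), g n = c) ∨ Tendsto g U atTop := by
  by_cases hg : Tendsto g U atTop
  · exact Or.inr hg
  · left
    rw [tendsto_atTop] at hg
    push Not at hg
    obtain ⟨N, hN⟩ := hg
    have h1 : ∀ᶠ n in (U : Filter ℕ), ¬ (N ≤ g n) := by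
      filter_upwards [hN] with n hn
      omega
    have h2 : ∀ᶠ n in (U : Filter ℕ), ∃ c ∈ (↑(Finset.range N) : Set ℕ), g n = c := by
      filter_upwards [h1] with n hn
      refine ⟨g n, ?_, rfl⟩
      simp only [Finset.coe_range, Set.mem_Iio]
      omega
    rw [Ultrafilter.eventually_exists_mem_iff (Finset.finite_toSet _)] at h2
    obtain ⟨c, -, hc⟩ := h2
    exact ⟨c, hc⟩

/-- limit when the exponent tends to infinity -/
lemma tendsto_exp {p : ℕ} (hp : 2 ≤ p) {l : Filter ℕ} {a : ℕ → ℕ} (ha : Tendsto a l atTop) :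
    Tendsto (fun n => h p (a n)) l (𝓝 ((p : ℝ) / ((p - 1 : ℕ) : ℝ))) := by
  have hp1 : (1 : ℝ) < p := by exact_mod_cast hp
  have key : ∀ a : ℕ, h p a = ((p : ℝ) / ((p - 1 : ℕ) : ℝ)) * (1 - ((p : ℝ)⁻¹) ^ (a + 1)) := by
    intro a
    rw [h_eq hp a]
    congr 1
    rw [Nat.cast_sub (Nat.one_le_pow _ _ (by omega))]
    push_cast
    have : (0 : ℝ) < (p : ℝ) ^ (a + 1) := by positivity
    rw [sub_div, div_self this.ne', inv_pow, one_div]
  simp_rw [key]
  have h1 : Tendsto (fun n : ℕ => ((p : ℝ)⁻¹) ^ (n + 1)) atTop (𝓝 0) := by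
    have h0 : Tendsto (fun n : ℕ => ((p : ℝ)⁻¹) ^ n) atTop (𝓝 0) := by
      apply tendsto_pow_atTop_nhds_zero_of_lt_one
      · positivity
      · exact inv_lt_one_of_one_lt₀ hp1
    exact h0.comp (tendsto_add_atTop_nat 1)
  have h2 := (h1.comp ha).const_sub 1
  have h3 := h2.const_mul ((p : ℝ) / ((p - 1 : ℕ) : ℝ))
  simpa using h3

/-- limit when the prime tends to infinity -/
lemma tendsto_prime {l : Filter ℕ} {p a : ℕ → ℕ} (hp : Tendsto p l atTop) :
    Tendsto (fun n => h (p n) (a n)) l (𝓝 1) := by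
  have h1 : Tendsto (fun m : ℕ => (m : ℝ) / ((m - 1 : ℕ) : ℝ)) atTop (𝓝 1) := by
    have h0 : Tendsto (fun m : ℕ => ((m : ℝ) + 1) / (m : ℝ)) atTop (𝓝 1) := by
      have := tendsto_const_nhds (x := (1 : ℝ)) (f := (atTop : Filter ℕ)) |>.add
        (tendsto_inv_atTop_nhds_zero_nat (𝕜 := ℝ))
      rw [add_zero] at this
      apply this.congr'
      filter_upwards [eventually_gt_atTop 0] with m hm
      have : (0 : ℝ) < m := by exact_mod_cast hm
      field_simp
    have h2 := h0.comp (tendsto_sub_atTop_nat 1)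
    apply h2.congr'
    filter_upwards [eventually_ge_atTop 1] with m hm
    simp only [Function.comp_apply]
    rw [Nat.cast_sub hm]
    simp
  have h2 := h1.comp hp
  refine tendsto_of_tendsto_of_tendsto_of_le_of_le' tendsto_const_nhds h2 ?_ ?_
  · filter_upwards [hp.eventually_ge_atTop 2] with n hn
    exact h_ge_one hn _
  · filter_upwards [hp.eventually_ge_atTop 2] with n hn
    exact h_le hn _

/-- the type of an index along the ultrafilter -/
inductive Ty | cc | ce | inf
  deriving DecidableEq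

lemma main (k : ℕ) : Set.Finite {n : ℕ | Odd n ∧ n.primeFactors.card = k ∧
    ∃ d : ℕ, d ∣ n ∧ d < n ∧ (∑ i ∈ n.divisors, i) + d = 2 * n} := by
  classical
  by_contra hinf
  set A := {n : ℕ | Odd n ∧ n.primeFactors.card = k ∧
    ∃ d : ℕ, d ∣ n ∧ d < n ∧ (∑ i ∈ n.divisors, i) + d = 2 * n} with hA
  have hAinf : A.Infinite := hinf
  have := hAinf.cofinite_inf_principal_neBot
  set U := Ultrafilter.of (cofinite ⊓ 𝓟 A) with hU
  have hUle : (U : Filter ℕ) ≤ cofinite ⊓ 𝓟 A := Ultrafilter.of_le _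
  have hUA : ∀ᶠ n in (U : Filter ℕ), n ∈ A := (hUle.trans inf_le_right) (mem_principal_self A)
  have hUcof : (U : Filter ℕ) ≤ cofinite := hUle.trans inf_le_left
  -- the primes and the exponents
  set P : ℕ → Fin k → ℕ := fun n i =>
    if hn : n.primeFactors.card = k then ((n.primeFactors.equivFinOfCardEq hn).symm i : ℕ) else 0
    with hP
  set a : ℕ → Fin k → ℕ := fun n i => n.factorization (P n i) with ha
  have hPmem : ∀ n ∈ A, ∀ i, P n i ∈ n.primeFactors := by
    intro n hn i
    simp only [hP, dif_pos hn.2.1]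
    exact ((n.primeFactors.equivFinOfCardEq hn.2.1).symm i).2
  have hPinj : ∀ n ∈ A, Function.Injective (P n) := by
    intro n hn i j hij
    simp only [hP, dif_pos hn.2.1] at hij
    exact (n.primeFactors.equivFinOfCardEq hn.2.1).symm.injective (Subtype.ext hij)
  have hPprod : ∀ n ∈ A, ∀ f : ℕ → ℕ, ∏ p ∈ n.primeFactors, f p = ∏ i : Fin k, f (P n i) := by
    intro n hn f
    rw [← Finset.prod_coe_sort n.primeFactors]
    rw [← Equiv.prod_comp (n.primeFactors.equivFinOfCardEq hn.2.1).symm]
    apply Finset.prod_congr rfl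
    intro i _
    simp only [hP, dif_pos hn.2.1]
  have hne : ∀ n ∈ A, n ≠ 0 := by
    rintro n ⟨ho, -⟩ rfl
    exact absurd ho (by decide)
  have hn_prod : ∀ n ∈ A, n = ∏ i : Fin k, (P n i) ^ (a n i) := by
    intro n hn
    rw [ha, ← hPprod n hn (fun p => p ^ n.factorization p)]
    exact (Nat.prod_factorization_pow_eq_self (hne n hn)).symm
  have hs_prod : ∀ n ∈ A, ∑ i ∈ n.divisors, i = ∏ i : Fin k, s (P n i) (a n i) := by
    intro n hn
    rw [ha, ← hPprod n hn (fun p => s p (n.factorization p)), Nat.sum_divisors (hne n hn)]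
    rfl
  have hprime : ∀ n ∈ A, ∀ i, (P n i).Prime := fun n hn i =>
    Nat.prime_of_mem_primeFactors (hPmem n hn i)
  have hodd : ∀ n ∈ A, ∀ i, Odd (P n i) := fun n hn i =>
    hn.1.of_dvd_nat (Nat.dvd_of_mem_primeFactors (hPmem n hn i))
  have hapos : ∀ n ∈ A, ∀ i, 1 ≤ a n i := by
    intro n hn i
    exact (hprime n hn i).factorization_pos_of_dvd (hne n hn)
      (Nat.dvd_of_mem_primeFactors (hPmem n hn i))
  -- classification of the indices
  obtain ⟨ty, pc, ac, hty⟩ : ∃ (ty : Fin k → Ty) (pc ac : Fin k → ℕ), ∀ i,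
      (ty i = .cc → ∀ᶠ n in (U : Filter ℕ), P n i = pc i ∧ a n i = ac i) ∧
      (ty i = .ce → (∀ᶠ n in (U : Filter ℕ), P n i = pc i) ∧ Tendsto (fun n => a n i) U atTop) ∧
      (ty i = .inf → Tendsto (fun n => P n i) U atTop) := by
    have : ∀ i : Fin k, ∃ (t : Ty) (p b : ℕ),
      (t = .cc → ∀ᶠ n in (U : Filter ℕ), P n i = p ∧ a n i = b) ∧
      (t = .ce → (∀ᶠ n in (U : Filter ℕ), P n i = p) ∧ Tendsto (fun n => a n i) U atTop) ∧
      (t = .inf → Tendsto (fun n => P n i) U atTop) := by
      intro i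
      rcases dichotomy U (fun n => P n i) with ⟨p, hp⟩ | hp
      · rcases dichotomy U (fun n => a n i) with ⟨b, hb⟩ | hb
        · exact ⟨.cc, p, b, fun _ => hp.and hb, fun h => (nomatch h), fun h => (nomatch h)⟩
        · exact ⟨.ce, p, 0, fun h => (nomatch h), fun _ => ⟨hp, hb⟩, fun h => (nomatch h)⟩
      · exact ⟨.inf, 0, 0, fun h => (nomatch h), fun h => (nomatch h), fun _ => hp⟩
    choose t p b hh using this
    exact ⟨t, p, b, hh⟩
  have hev : ∀ᶠ n in (U : Filter ℕ), n ∈ A ∧ ∀ i, (ty i = .cc → P n i = pc i ∧ a n i = ac i) ∧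
      (ty i = .ce → P n i = pc i) := by
    refine hUA.and (eventually_all.2 fun i => ?_)
    rcases hi : ty i with _ | _ | _
    · filter_upwards [(hty i).1 hi] with n hn
      exact ⟨fun _ => hn, fun h => (nomatch h)⟩
    · filter_upwards [((hty i).2.1 hi).1] with n hn
      exact ⟨fun h => (nomatch h), fun _ => hn⟩
    · exact Eventually.of_forall fun n => ⟨fun h => (nomatch h), fun h => (nomatch h)⟩
  -- a reference point
  obtain ⟨n₀, hn₀A, hn₀⟩ := hev.exists
  have hpc_prime : ∀ i, ty i ≠ .inf → (pc i).Prime := by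
    intro i hi
    rcases h : ty i with _ | _ | _
    · rw [← ((hn₀ i).1 h).1]; exact hprime _ hn₀A i
    · rw [← ((hn₀ i).2 h)]; exact hprime _ hn₀A i
    · exact absurd h hi
  have hpc_odd : ∀ i, ty i ≠ .inf → Odd (pc i) := by
    intro i hi
    rcases h : ty i with _ | _ | _
    · rw [← ((hn₀ i).1 h).1]; exact hodd _ hn₀A i
    · rw [← ((hn₀ i).2 h)]; exact hodd _ hn₀A i
    · exact absurd h hi
  have hpc_inj : ∀ i j, ty i ≠ .inf → ty j ≠ .inf → pc i = pc j → i = j := by
    intro i j hi hj hij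
    apply hPinj _ hn₀A
    have e : ∀ i, ty i ≠ .inf → P n₀ i = pc i := by
      intro i hi
      rcases h : ty i with _ | _ | _
      · exact ((hn₀ i).1 h).1
      · exact (hn₀ i).2 h
      · exact absurd h hi
    rw [e i hi, e j hj, hij]
  set N : Fin k → ℕ := fun i => match ty i with
    | .cc => s (pc i) (ac i)
    | .ce => pc i
    | .inf => 1 with hN
  set D : Fin k → ℕ := fun i => match ty i with
    | .cc => (pc i) ^ (ac i)
    | .ce => pc i - 1
    | .inf => 1 with hD
  have hNcc : ∀ i, ty i = .cc → N i = s (pc i) (ac i) := fun i hi => by simp only [hN, hi]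
  have hNce : ∀ i, ty i = .ce → N i = pc i := fun i hi => by simp only [hN, hi]
  have hNinf : ∀ i, ty i = .inf → N i = 1 := fun i hi => by simp only [hN, hi]
  have hDcc : ∀ i, ty i = .cc → D i = (pc i) ^ (ac i) := fun i hi => by simp only [hD, hi]
  have hDce : ∀ i, ty i = .ce → D i = pc i - 1 := fun i hi => by simp only [hD, hi]
  have hDinf : ∀ i, ty i = .inf → D i = 1 := fun i hi => by simp only [hD, hi]
  have hDpos : ∀ i, 0 < D i := by
    intro i
    rcases h : ty i with _ | _ | _
    · rw [hDcc i h]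
      exact pow_pos (hpc_prime i (by rw [h]; decide)).pos _
    · rw [hDce i h]
      have := (hpc_prime i (by rw [h]; decide)).two_le
      omega
    · rw [hDinf i h]; exact one_pos
  have hNpos : ∀ i, 0 < N i := by
    intro i
    rcases h : ty i with _ | _ | _
    · rw [hNcc i h]
      exact lt_of_lt_of_le (pow_pos (hpc_prime i (by rw [h]; decide)).pos _) (s_ge _ _)
    · rw [hNce i h]
      exact (hpc_prime i (by rw [h]; decide)).pos
    · rw [hNinf i h]; exact one_pos
  set L : Fin k → ℝ := fun i => (N i : ℝ) / (D i : ℝ) with hL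
  have hLpos : ∀ i, 0 < L i := fun i =>
    div_pos (by exact_mod_cast hNpos i) (by exact_mod_cast hDpos i)
  have hlim : ∀ i, Tendsto (fun n => h (P n i) (a n i)) U (𝓝 (L i)) := by
    intro i
    rcases hi : ty i with _ | _ | _
    · simp only [hL, hNcc i hi, hDcc i hi]
      apply tendsto_const_nhds.congr'
      filter_upwards [(hty i).1 hi] with n hn
      rw [hn.1, hn.2]
      unfold h
      push_cast
      rfl
    · simp only [hL, hNce i hi, hDce i hi]
      have h1 := tendsto_exp (hpc_prime i (by rw [hi]; decide)).two_le ((hty i).2.1 hi).2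
      apply h1.congr'
      filter_upwards [((hty i).2.1 hi).1] with n hn
      rw [hn]
    · simp only [hL, hNinf i hi, hDinf i hi]
      have := tendsto_prime (a := fun n => a n i) ((hty i).2.2 hi)
      simpa using this
  set F : ℕ → ℝ := fun n => ∏ i, h (P n i) (a n i) with hF
  have hFlim : Tendsto F U (𝓝 (∏ i, L i)) := tendsto_finsetProd _ (fun i _ => hlim i)
  have hFval : ∀ n ∈ A, F n * n = (∑ i ∈ n.divisors, i : ℕ) := by
    intro n hn
    have h1 : (n : ℝ) = ∏ i : Fin k, (P n i : ℝ) ^ (a n i) := by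
      conv_lhs => rw [hn_prod n hn]
      push_cast
      rfl
    rw [hs_prod n hn]
    rw [h1, hF]
    simp only
    rw [← Finset.prod_mul_distrib]
    push_cast
    apply Finset.prod_congr rfl
    intro i _
    unfold h
    have : (0 : ℝ) < (P n i : ℝ) ^ (a n i) := by
      have := (hprime n hn i).pos
      positivity
    rw [div_mul_cancel₀ _ this.ne']
  -- the cofactor of the deficient divisor
  have hM : ∀ n : ℕ, ∃ m : ℕ, n ∈ A → 1 ≤ m ∧ F n = 2 - 1 / (m : ℝ) := by
    intro n
    by_cases hn : n ∈ A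
    · obtain ⟨d, ⟨m, hm⟩, hdn, hd⟩ := hn.2.2
      refine ⟨m, fun _ => ?_⟩
      have hm1 : 1 ≤ m := by
        rcases Nat.eq_zero_or_pos m with h0 | h0
        · rw [h0, mul_zero] at hm; omega
        · exact h0
      have hd1 : 1 ≤ d := by
        rcases Nat.eq_zero_or_pos d with h0 | h0
        · rw [h0, zero_mul] at hm
          exact absurd hm (hne n hn)
        · exact h0
      refine ⟨hm1, ?_⟩
      have h1 := hFval n hn
      have h2 : ((∑ i ∈ n.divisors, i : ℕ) : ℝ) + d = 2 * n := by exact_mod_cast hd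
      have h3 : (n : ℝ) = d * m := by exact_mod_cast hm
      have hd0 : (0 : ℝ) < d := by exact_mod_cast hd1
      have hm0 : (0 : ℝ) < m := by exact_mod_cast hm1
      rw [← h1, h3] at h2
      have h4 : F n * m = 2 * m - 1 := by
        have : d * (F n * m) = d * (2 * m - 1 : ℝ) := by linarith
        exact mul_left_cancel₀ hd0.ne' this
      field_simp
      linarith
    · exact ⟨0, fun h => absurd h hn⟩
  choose M hMspec using hM
  have hA_lt : ∀ n ∈ A, F n < 2 := by
    intro n hn
    obtain ⟨h1, h2⟩ := hMspec n hn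
    have : (0 : ℝ) < 1 / (M n : ℝ) := by
      have : (0 : ℝ) < M n := by exact_mod_cast h1
      positivity
    rw [h2]; linarith
  have hL_cast : ∏ i, L i = ((∏ i, N i : ℕ) : ℝ) / ((∏ i, D i : ℕ) : ℝ) := by
    simp only [hL]
    rw [Finset.prod_div_distrib]
    push_cast
    rfl
  have hDprod : (0 : ℝ) < ((∏ i, D i : ℕ) : ℝ) := by
    exact_mod_cast Finset.prod_pos (fun i _ => hDpos i)
  -- every factor is at least its limit when no index is of type `ce`
  have hge : (∀ i, ty i ≠ .ce) → ∀ᶠ n in (U : Filter ℕ), n ∈ A ∧ ∀ i, L i ≤ h (P n i) (a n i) ∧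
      (ty i = .inf → L i < h (P n i) (a n i)) := by
    intro hno
    filter_upwards [hev] with n hn
    refine ⟨hn.1, fun i => ?_⟩
    rcases hi : ty i with _ | _ | _
    · obtain ⟨h1, h2⟩ := (hn.2 i).1 hi
      refine ⟨le_of_eq ?_, fun h => (nomatch h)⟩
      simp only [hL, hNcc i hi, hDcc i hi]
      rw [h1, h2]
      unfold h
      push_cast
      rfl
    · exact absurd hi (hno i)
    · have h1 : L i = 1 := by simp only [hL, hNinf i hi, hDinf i hi]; norm_num
      have h2 : (1 : ℝ) < h (P n i) (a n i) := by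
        unfold h
        have : (0 : ℝ) < (P n i : ℝ) ^ (a n i) := by
          have := (hprime n hn.1 i).pos
          positivity
        rw [lt_div_iff₀ this, one_mul]
        exact_mod_cast s_gt (p := P n i) (hapos n hn.1 i)
      rw [h1]
      exact ⟨h2.le, fun _ => h2⟩
  rcases dichotomy U M with ⟨m, hm⟩ | hm
  · -- the cofactor is eventually constant
    have hconst : ∀ᶠ n in (U : Filter ℕ), F n = 2 - 1 / (m : ℝ) := by
      filter_upwards [hm, hUA] with n h1 h2
      rw [(hMspec n h2).2, h1]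
    have hprodL : ∏ i, L i = 2 - 1 / (m : ℝ) :=
      tendsto_nhds_unique hFlim (tendsto_const_nhds.congr' (hconst.mono fun n hn => hn.symm))
    by_cases h2 : ∃ i, ty i = .ce
    · obtain ⟨n, hn, hnF⟩ := (hev.and hconst).exists
      obtain ⟨hnA, hnc⟩ := hn
      set X : Fin k → ℕ := fun i => match ty i with
        | .cc => 1
        | .ce => (P n i) ^ (a n i + 1) - 1
        | .inf => s (P n i) (a n i) with hX
      set Y : Fin k → ℕ := fun i => match ty i with
        | .cc => 1
        | .ce => (P n i) ^ (a n i + 1)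
        | .inf => (P n i) ^ (a n i) with hY
      have hXY : ∀ i, h (P n i) (a n i) = L i * ((X i : ℝ) / (Y i : ℝ)) := by
        intro i
        rcases hi : ty i with _ | _ | _
        · obtain ⟨h1, h2⟩ := (hnc i).1 hi
          simp only [hL, hX, hY, hi, hNcc i hi, hDcc i hi]
          rw [h1, h2]
          unfold h
          push_cast
          rw [div_one, mul_one]
        · have h1 := (hnc i).2 hi
          simp only [hL, hX, hY, hi, hNce i hi, hDce i hi]
          rw [← h1]
          exact h_eq (hprime n hnA i).two_le _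
        · simp only [hL, hX, hY, hi, hNinf i hi, hDinf i hi]
          unfold h
          push_cast
          rw [div_one, one_mul]
      have hYodd : ∀ i, Odd (Y i) := by
        intro i
        rcases hi : ty i with _ | _ | _
        · simp only [hY, hi]; decide
        · simp only [hY, hi]; exact (hodd n hnA i).pow
        · simp only [hY, hi]; exact (hodd n hnA i).pow
      have hYprod_odd : Odd (∏ i, Y i) := by
        apply Finset.prod_induction _ Odd (fun x y => Odd.mul) (by decide)
        intro i _; exact hYodd i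
      have hYpos : (0 : ℝ) < ((∏ i, Y i : ℕ) : ℝ) := by exact_mod_cast hYprod_odd.pos
      have heq : ∏ i, X i = ∏ i, Y i := by
        have h1 : F n = (∏ i, L i) * (((∏ i, X i : ℕ) : ℝ) / ((∏ i, Y i : ℕ) : ℝ)) := by
          have hq : (((∏ i, X i : ℕ) : ℝ) / ((∏ i, Y i : ℕ) : ℝ))
              = ∏ i, ((X i : ℝ) / (Y i : ℝ)) := by
            rw [Finset.prod_div_distrib]
            push_cast
            rfl
          rw [hq, ← Finset.prod_mul_distrib, hF]
          exact Finset.prod_congr rfl (fun i _ => hXY i)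
        rw [hnF, ← hprodL] at h1
        have hpos : 0 < ∏ i, L i := Finset.prod_pos (fun i _ => hLpos i)
        have h2 : ((∏ i, X i : ℕ) : ℝ) / ((∏ i, Y i : ℕ) : ℝ) = 1 := by
          have : (∏ i, L i) * (((∏ i, X i : ℕ) : ℝ) / ((∏ i, Y i : ℕ) : ℝ)) = (∏ i, L i) * 1 := by
            rw [mul_one]; exact h1.symm
          exact mul_left_cancel₀ hpos.ne' this
        rw [div_eq_one_iff_eq hYpos.ne'] at h2
        exact_mod_cast h2
      obtain ⟨i, hi⟩ := h2
      have hXeven : Even (X i) := by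
        simp only [hX, hi]
        have h3 : Odd ((P n i) ^ (a n i + 1)) := (hodd n hnA i).pow
        exact Nat.Odd.sub_odd h3 (by decide)
      have : Even (∏ i, X i) := by
        rw [← Finset.mul_prod_erase _ _ (Finset.mem_univ i)]
        exact hXeven.mul_right _
      rw [heq] at this
      exact (Nat.not_even_iff_odd.2 hYprod_odd) this
    · push Not at h2
      by_cases h3 : ∃ i, ty i = .inf
      · obtain ⟨i, hi⟩ := h3
        obtain ⟨n, ⟨hnA, hn⟩, hnF⟩ := ((hge h2).and hconst).exists
        have : ∏ i, L i < F n := by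
          rw [hF]
          apply Finset.prod_lt_prod (fun i _ => hLpos i) (fun i _ => (hn i).1)
          exact ⟨i, Finset.mem_univ i, (hn i).2 hi⟩
        rw [hnF, hprodL] at this
        exact lt_irrefl _ this
      · push Not at h3
        have h4 : ∀ i, ty i = .cc := by
          intro i
          rcases hi : ty i with _ | _ | _
          · rfl
          · exact absurd hi (h2 i)
          · exact absurd hi (h3 i)
        have h5 : ∀ᶠ n in (U : Filter ℕ), n = ∏ i, (pc i) ^ (ac i) := by
          filter_upwards [hev] with n hn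
          conv_lhs => rw [hn_prod n hn.1]
          apply Finset.prod_congr rfl
          intro i _
          obtain ⟨h6, h7⟩ := (hn.2 i).1 (h4 i)
          rw [h6, h7]
        have h6 : ∀ᶠ n in (U : Filter ℕ), n ≠ ∏ i, (pc i) ^ (ac i) :=
          hUcof (eventually_cofinite_ne _)
        obtain ⟨n, h7, h8⟩ := (h5.and h6).exists
        exact h8 h7
  · -- the cofactor tends to infinity
    have hF2 : Tendsto F U (𝓝 2) := by
      have h1 : Tendsto (fun n => 2 - 1 / (M n : ℝ)) U (𝓝 (2 - 0)) := by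
        apply Tendsto.const_sub
        have := tendsto_one_div_atTop_nhds_zero_nat (𝕜 := ℝ)
        exact this.comp hm
      rw [sub_zero] at h1
      apply h1.congr'
      filter_upwards [hUA] with n hn
      exact (hMspec n hn).2.symm
    have hprodL : ∏ i, L i = 2 := tendsto_nhds_unique hFlim hF2
    by_cases h2 : ∃ i, ty i = .ce
    · -- the largest prime among the indices of type `ce`
      have hne' : (Finset.univ.filter (fun i => ty i = .ce)).Nonempty := by
        obtain ⟨i, hi⟩ := h2
        exact ⟨i, by simp [hi]⟩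
      obtain ⟨i₀, hi₀, hmax⟩ := Finset.exists_max_image _ pc hne'
      rw [Finset.mem_filter] at hi₀
      have hi₀' := hi₀.2
      have hq := hpc_prime i₀ (by rw [hi₀']; decide)
      have hNat : ∏ i, N i = 2 * ∏ i, D i := by
        rw [hL_cast, div_eq_iff hDprod.ne'] at hprodL
        exact_mod_cast hprodL
      have hdvd : pc i₀ ∣ 2 * ∏ i, D i := by
        rw [← hNat]
        have : N i₀ ∣ ∏ i, N i := Finset.dvd_prod_of_mem _ (Finset.mem_univ i₀)
        rwa [hNce i₀ hi₀'] at this
      rcases (hq.dvd_mul).1 hdvd with h3 | h3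
      · have h4 := (Nat.prime_dvd_prime_iff_eq hq Nat.prime_two).1 h3
        have h5 := hpc_odd i₀ (by rw [hi₀']; decide)
        rw [h4] at h5
        exact absurd h5 (by decide)
      · rw [hq.prime.dvd_finsetProd_iff] at h3
        obtain ⟨i, -, h4⟩ := h3
        rcases hi : ty i with _ | _ | _
        · rw [hDcc i hi] at h4
          have h5 := (Nat.prime_dvd_prime_iff_eq hq (hpc_prime i (by rw [hi]; decide))).1
            (hq.dvd_of_dvd_pow h4)
          have h6 := hpc_inj i₀ i (by rw [hi₀']; decide) (by rw [hi]; decide) h5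
          rw [h6, hi] at hi₀'
          exact nomatch hi₀'
        · rw [hDce i hi] at h4
          have h5 := hmax i (by simp [hi])
          have h6 := (hpc_prime i (by rw [hi]; decide)).two_le
          have h7 := Nat.le_of_dvd (by omega) h4
          omega
        · rw [hDinf i hi] at h4
          exact hq.one_lt.ne' (Nat.dvd_one.1 h4)
    · push Not at h2
      obtain ⟨n, hnA, hn⟩ := (hge h2).exists
      have h3 : ∏ i, L i ≤ F n := by
        rw [hF]
        exact Finset.prod_le_prod (fun i _ => (hLpos i).le) (fun i _ => (hn i).1)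
      rw [hprodL] at h3
      exact absurd (hA_lt n hnA) (not_lt.2 h3)

end Pool.Agent.H457R3.DefPerf
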